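import Pool.Agent.R166.SZ.Main

/-!
# MP_f3836a_nt: Soulé's conjecture and complements of elementary arrangements

An elementary arrangement is a finite union of hypersurfaces of the forms `x_i x_j = x_k`,
`x_i + x_j = x_k`, `x_i = 1` in an affine space over `ℤ`. Its complement `compl a` is the spectrum of
`ℤ[x_1, …, x_N, 1/a]`, where `a` is the product of the polynomials `x_i x_j - x_k`, `x_i + x_j - x_k`,
`x_i - 1`, a smooth affine scheme over `ℤ`, open in affine space.

1. The zeta functions of all separated schemes of finite type over `ℤ` have meromorphic continuations to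
the complex plane if and only if this is true for the complements of elementary arrangements. (Nothing
is assumed here; the convergence of the Euler products, Serre's theorem, is proved on the way.)

2. For every `j ≥ 0`: the rational higher Chow groups `CH_{-j}(X, i)_ℚ` are finite dimensional and
almost all zero for all separated schemes `X` of finite type over `ℤ` if and only if this is true for the
complements of elementary arrangements. Here only the localization sequences are used
(`ChowTheory`). For regular `X` of dimension `d` we have `CH_{-j}(X, i)_ℚ = H^{2(d+j)-i}(X, ℚ(d+j))`.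

3. For every `j ≥ 0`: the strong form of Soulé's conjecture at `s = -j`, that is continuation,
finiteness and `ord_{s=-j} ζ(X, s) = ∑ (-1)^{i+1} dim CH_{-j}(X, i)_ℚ`, holds for all separated schemes
of finite type over `ℤ` if and only if it holds for the complements of elementary arrangements.

4. If the strong form at `s = 0` holds for the complements of elementary arrangements, then the
identity of the problem holds for all its schemes (the regular connected schemes which are flat and
proper over `ℤ`), and they satisfy the hypotheses (i) and (ii).

The proof. The zeta function is multiplicative, and the Euler characteristic additive, for a closed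
subscheme and its complement. Every finitely generated ring is `ℤ[x_1, …, x_N]` modulo elementary
polynomials (R904.EL.Elem); so every affine scheme of finite type is the complement in an affine space
of a finite union of opens `a ≠ 0`, whose intersections are complements of elementary arrangements.
Mayer-Vietoris and noetherian induction (R904.EL.Main, the reduction of finite generation statements in
MP_e93a6a_ag.ElementaryArrangements of helper904) give the rest.
-/

set_option autoImplicit false

open CategoryTheory AlgebraicGeometry
open Pool.Agent.R904.CU Pool.Agent.R904.EL Pool.Agent.R166.SZ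

namespace Pool.Agent.Results.MP_f3836a_nt.ElementaryArrangements

/-- The identity of the problem for all regular connected schemes `X` which are flat and proper over
`ℤ`, whose zeta function has a meromorphic continuation `g` to the complex plane, and for which the
spaces `CH_0(X, i)_ℚ = H^{2d-i}(X, ℚ(d))` are finite dimensional and almost all zero. -/
def Q1 (T : ChowTheory) : Prop :=
  ∀ (X : Scheme.{0}) (f : X ⟶ Spec (.of ℤ)), IsProper f → Flat f → ConnectedSpace X →
    (∀ x : X, IsRegularLocalRing (X.presheaf.stalk x)) →
    ∀ g : ℂ → ℂ, IsContinuation X g → T.FiniteDim 0 X →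
      meromorphicOrderAt g 0 = (T.chi 0 X : WithTop ℤ)

/-- **Main theorem.** -/
theorem result (T : ChowTheory) :
    -- meromorphic continuation
    ((∀ (X : Scheme.{0}) (f : X ⟶ Spec (.of ℤ)), SepFinType ℤ X f → HasCont X) ↔
      ∀ (σ : Type) [Fintype σ], ∀ a ∈ elemProds ({1} : Set ℤ) σ, HasCont (compl a)) ∧
    -- finiteness
    (∀ j : ℕ, (∀ (X : Scheme.{0}) (f : X ⟶ Spec (.of ℤ)), SepFinType ℤ X f → T.FiniteDim j X) ↔
      ∀ (σ : Type) [Fintype σ], ∀ a ∈ elemProds ({1} : Set ℤ) σ, T.FiniteDim j (compl a)) ∧
    -- the strong form of the conjecture
    (∀ j : ℕ, (∀ (X : Scheme.{0}) (f : X ⟶ Spec (.of ℤ)), SepFinType ℤ X f → T.Soule j X) ↔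
      ∀ (σ : Type) [Fintype σ], ∀ a ∈ elemProds ({1} : Set ℤ) σ, T.Soule j (compl a)) ∧
    -- the problem
    ((∀ (σ : Type) [Fintype σ], ∀ a ∈ elemProds ({1} : Set ℤ) σ, T.Soule 0 (compl a)) →
      Q1 T ∧ ∀ (X : Scheme.{0}) (f : X ⟶ Spec (.of ℤ)), IsProper f →
        HasCont X ∧ T.FiniteDim 0 X) := by
  refine ⟨all_iff glue_cont, fun j => all_iff (T.glue_fin j), fun j => all_iff (T.glue_soule j),
    fun h => ?_⟩
  have h1 := (all_iff (T.glue_soule 0)).2 h
  have hs : ∀ (X : Scheme.{0}) (f : X ⟶ Spec (.of ℤ)), IsProper f → SepFinType ℤ X f :=
    fun X f hf => ⟨inferInstance, inferInstance, inferInstance⟩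
  refine ⟨fun X f hf _ _ _ g hg _ => ?_, fun X f hf => ?_⟩
  · have h2 := (h1 X f (hs X f hf)).order g hg
    rwa [Nat.cast_zero, neg_zero] at h2
  · have h2 := h1 X f (hs X f hf)
    exact ⟨h2.cont, h2.fin⟩

end Pool.Agent.Results.MP_f3836a_nt.ElementaryArrangements
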