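import Pool.Agent.R387.SO.Main

/-!
# Soulé's conjecture at `s = 0` and at the negative integers

Let `S` be a class of regular connected schemes proper over `ℤ`, flat or not, for example all those
which are projective over `ℤ`. For `X` in `S` of Krull dimension `d` and `j ≥ 0` Soulé's identity at
`s = -j` is `ord_{s=-j} ζ(X, s) = ∑ (-1)^{i+1} dim H^{2(d+j)-i}(X, ℚ(d+j))`; the problem is the case
`j = 0` for flat `X`. We consider good schemes, that is the schemes for which the hypotheses of the
problem hold at all integers `-j`: the zeta function has a meromorphic continuation to the complex plane,
and the motivic cohomology in every weight `≥ d` is finite dimensional and bounded.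

We assume the formulas for the zeta functions and the motivic cohomology of blow-ups and of products
with projective spaces (`IsData`), and that `Spec ℤ` is good and satisfies the identity at `s = 0`
(Riemann, Borel, Dirichlet).

**Theorem.** (1) The identity at `s = 0` holds for all schemes which are obtained from projective spaces
over `ℤ` by finitely many blow-ups in good centres (flat or not) if and only if for all good schemes, flat
or not, the identity holds at all `s = -j`, `j ≥ 1`.

(2) The identity of the problem, `j = 0`, holds for all good flat schemes if and only if the identity at
`s = -j` holds for all good flat schemes and all `j ≥ 0` and for all other good schemes and all `j ≥ 1`.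

(3) If the identity at `s = 0` holds for the schemes in (1), then for all good schemes the identity at
`s = 0` is invariant under blow-ups in good centres and under products with projective spaces.

(4) For every `N` the identity at `s = 0` for all good flat schemes of dimension `≤ N` is equivalent to
the identity at `s = -j` for all good flat schemes of dimension `≤ N - j` and all `j ≥ 0`.
-/

open Pool.Agent.R387.SO

namespace Pool.Agent.Results.MP_f3836a_nt.NonpositiveIntegers

theorem result {S : VarClass} {D : Data S} (h : IsData D) (hpt : Good D D.pt)
    (h0 : Soule D D.pt 0) :
    TowersIffNegative D ∧ ZeroIffNonpositive D ∧ Invariance D ∧ ∀ N, UpToDimension D N :=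
  ⟨towersIffNegative h hpt h0, zeroIffNonpositive h hpt, invariance h hpt, upToDimension h⟩

end Pool.Agent.Results.MP_f3836a_nt.NonpositiveIntegers
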