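import Pool.Agent.R791.Dir6

/-!
# Soulé's conjecture: the continuation of `ζ(X, s)` and its order at `s = 0` from sums over closed points

For a scheme `X` of finite type over `ℤ`, a real number `w` and `ρ > 1` we consider the sums
`T(y) = ∑ N(x)^(-k w) / k * K_ρ (k log N(x) / y^(1/ρ))` over the closed points `x` of `X` and `k ≥ 1`.
For `ρ = 2` they are sums of Gaussian functions of `k log N(x)`.
-/

set_option autoImplicit false

namespace Pool.Agent.Results.MP_f3836a_nt.OrderFromClosedPoints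

open Filter Topology Complex AlgebraicGeometry

universe u

/-- the closed points of `X` -/
abbrev ClosedPt (X : Scheme.{u}) : Type u := {x : X // IsClosed ({x} : Set X)}

/-- `N(x)`, the number of elements of the residue field of the closed point `x` -/
noncomputable def nm (X : Scheme.{u}) (x : ClosedPt X) : ℕ := Nat.card (X.residueField x.1)

/-- The residue fields of the closed points of `X` are finite, and `∑ N(x)^(-σ)` converges for `σ > d`.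
This holds for schemes of finite type over `ℤ` of dimension `d`. -/
structure Arithmetic (X : Scheme.{u}) (d : ℝ) : Prop where
  nonneg : 0 ≤ d
  finite : ∀ x : ClosedPt X, Finite (X.residueField x.1)
  conv : ∀ σ : ℝ, d < σ → Summable fun x : ClosedPt X => (nm X x : ℝ) ^ (-σ)

/-- the zeta function, `Re s > d` -/
noncomputable def zeta (X : Scheme.{u}) (s : ℂ) : ℂ :=
  ∏' x : ClosedPt X, (1 - (nm X x : ℂ) ^ (-s))⁻¹

/-- `K_ρ(u) = (2π)⁻¹ ∫ Re exp (z - u z^(1/ρ)) dt`, `z = 1 + it` -/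
noncomputable def kernel (ρ u : ℝ) : ℝ :=
  (2 * Real.pi)⁻¹ * ∫ t : ℝ, (exp ((1 + t * I) - u * (1 + t * I) ^ ((ρ⁻¹ : ℝ) : ℂ))).re

/-- the term of the closed point `p.1` and of `k = p.2 + 1` -/
noncomputable def term (X : Scheme.{u}) (w ρ y : ℝ) (p : ClosedPt X × ℕ) : ℝ :=
  (nm X p.1 : ℝ) ^ (-(((p.2 : ℝ) + 1) * w)) / ((p.2 : ℝ) + 1) *
    kernel ρ (((p.2 : ℝ) + 1) * Real.log (nm X p.1) / y ^ ρ⁻¹)

/-- the sum over all closed points and all `k ≥ 1` -/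
noncomputable def T (X : Scheme.{u}) (w ρ y : ℝ) : ℝ := ∑' p, term X w ρ y p

/-- `ζ(X, s)` continues meromorphically along the real axis to a neighbourhood of `a`, and has the
order `r` there -/
def ContinuesTo (X : Scheme.{u}) (d a : ℝ) (r : ℤ) : Prop :=
  ∃ G : ℂ → ℂ, (∀ x : ℝ, a ≤ x → MeromorphicAt G x) ∧ (∀ s : ℂ, d < s.re → G s = zeta X s) ∧
    meromorphicOrderAt G a = r

/-- the region `|arg (s - w)| < π / (2 ρ)`, `Re (s - w) ^ ρ > θ` -/
def Region (w ρ θ : ℝ) : Set ℂ :=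
  {s | s ≠ w ∧ |(s - w).arg| < Real.pi / (2 * ρ) ∧ θ < ((s - w) ^ (ρ : ℂ)).re}

/-- `T(y) = -r exp ((a - w)^ρ y) + ∑ m z exp (z y) + O(exp (θ y))` with some `θ` in `[0, (a - w)^ρ)`,
finitely many complex numbers `z ≠ (a - w)^ρ` and integers `m z` -/
def Expands (X : Scheme.{u}) (w ρ a : ℝ) (r : ℤ) : Prop :=
  ∃ (θ : ℝ) (S : Finset ℂ) (m : ℂ → ℤ) (C : ℝ), 0 ≤ θ ∧ θ < (a - w) ^ ρ ∧
    (((a - w) ^ ρ : ℝ) : ℂ) ∉ S ∧ ∀ᶠ y : ℝ in atTop,
      ‖(T X w ρ y : ℂ) + r * exp (((a - w) ^ ρ : ℝ) * y) - ∑ z ∈ S, (m z : ℂ) * exp (z * y)‖ ≤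
        C * Real.exp (θ * y)

/-- **Continuation and order of the zeta function from sums over closed points.** -/
theorem result (X : Scheme.{u}) (d : ℝ) (hX : Arithmetic X d) :
    (∀ w ρ y : ℝ, 1 < ρ → 0 < y → Summable (term X w ρ y)) ∧
    (∀ v : ℝ, 0 < v → kernel 2 v = v * Real.exp (-v ^ 2 / 4) / (2 * √Real.pi)) ∧
    (∀ (a : ℝ) (r : ℤ), List.TFAE [
      ContinuesTo X d a r,
      ∃ w ρ : ℝ, w < a ∧ 1 < ρ ∧ Expands X w ρ a r,
      ∃ ε : ℝ, 0 < ε ∧ ∀ w : ℝ, a - ε < w → w < a → ∃ ρ₀ : ℝ, ∀ ρ : ℝ, 1 < ρ → ρ₀ < ρ →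
        Expands X w ρ a r]) ∧
    (∀ (w ρ θ a : ℝ) (G : ℂ → ℂ) (r : ℤ), 1 < ρ → 0 ≤ θ → w < a → θ < (a - w) ^ ρ →
      (∀ s ∈ Region w ρ θ, MeromorphicAt G s) → (∀ s : ℂ, d < s.re → G s = zeta X s) →
      (meromorphicOrderAt G a = r ↔ Expands X w ρ a r)) ∧
    (∀ (w ρ θ θ' : ℝ) (G : ℂ → ℂ), 1 < ρ → 0 ≤ θ → θ < θ' →
      (∀ s ∈ Region w ρ θ, MeromorphicAt G s) → (∀ s : ℂ, d < s.re → G s = zeta X s) →
      ∃ (hfin : {s : ℂ | s ∈ Region w ρ θ' ∧ meromorphicOrderAt G s ≠ 0}.Finite) (C : ℝ),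
        ∀ y : ℝ, 0 < y → ‖(T X w ρ y : ℂ) + ∑ s ∈ hfin.toFinset,
          ((meromorphicOrderAt G s).untop₀ : ℂ) * exp ((s - w) ^ (ρ : ℂ) * y)‖ ≤
            C * Real.exp (θ' * y)) ∧
    ∀ (w ρ θ : ℝ), 1 < ρ → 0 ≤ θ →
      ((∃ G : ℂ → ℂ, (∀ s : ℂ, s ∈ Region w ρ θ ∨ d < s.re → MeromorphicAt G s) ∧
        ∀ s : ℂ, d < s.re → G s = zeta X s) ↔
      ∀ ε : ℝ, 0 < ε → ∃ (S : Finset ℂ) (m : ℂ → ℤ) (C : ℝ), ∀ᶠ y : ℝ in atTop,
        ‖(T X w ρ y : ℂ) - ∑ z ∈ S, (m z : ℂ) * exp (z * y)‖ ≤ C * Real.exp ((θ + ε) * y)) := by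
  have F : Pool.Agent.R791.Dir.Fam (nm X) d := by
    refine ⟨hX.nonneg, fun x => ?_, hX.conv⟩
    have := hX.finite x
    exact Finite.one_lt_card
  have hreg : ∀ w ρ θ : ℝ, Region w ρ θ = Pool.Agent.R791.Level.LvAt w ρ θ := by
    intro w ρ θ
    ext s
    unfold Region Pool.Agent.R791.Level.LvAt Pool.Agent.R791.SectGen.SectorAt
    simp only [Set.mem_ofPred_eq, and_assoc]
  have hterm : ∀ w ρ y : ℝ, 0 < y → term X w ρ y = Pool.Agent.R791.Dir.termF (nm X) w ρ y := by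
    intro w ρ y hy
    funext p
    unfold term Pool.Agent.R791.Dir.termF Pool.Agent.R791.Dir.cF Pool.Agent.R791.Dir.lamF
    have h1 := F.npos p.1
    rw [Real.rpow_def_of_pos h1, Real.rpow_neg hy.le]
    have h2 : kernel ρ (((p.2 : ℝ) + 1) * Real.log (nm X p.1) / y ^ ρ⁻¹) =
        Pool.Agent.R791.Heat.gk ρ⁻¹ (((p.2 : ℝ) + 1) * Real.log (nm X p.1) * (y ^ ρ⁻¹)⁻¹) := by
      rw [← div_eq_mul_inv]
      rfl
    rw [h2]
    have h3 : Real.exp (Real.log (nm X p.1) * -(((p.2 : ℝ) + 1) * w)) =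
        Real.exp (-(w * (((p.2 : ℝ) + 1) * Real.log (nm X p.1)))) := by
      congr 1
      ring
    rw [h3]
    ring
  have hT : ∀ w ρ y : ℝ, 0 < y → T X w ρ y = ∑' p, Pool.Agent.R791.Dir.termF (nm X) w ρ y p :=
    fun w ρ y hy => by
      unfold T
      rw [hterm w ρ y hy]
  have hexp : ∀ (w ρ a : ℝ) (r : ℤ), Expands X w ρ a r ↔ Pool.Agent.R791.Dir.Expd
      (fun y => ∑' p, Pool.Agent.R791.Dir.termF (nm X) w ρ y p) w ρ a r := by
    intro w ρ a r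
    unfold Expands Pool.Agent.R791.Dir.Expd
    constructor
    · rintro ⟨θ, S, m, C, h1, h2, h3, h4⟩
      refine ⟨θ, S, m, C, h1, h2, h3, ?_⟩
      filter_upwards [h4, eventually_gt_atTop 0] with y hy hy0
      rw [← hT w ρ y hy0]
      exact hy
    · rintro ⟨θ, S, m, C, h1, h2, h3, h4⟩
      refine ⟨θ, S, m, C, h1, h2, h3, ?_⟩
      filter_upwards [h4, eventually_gt_atTop 0] with y hy hy0
      rw [hT w ρ y hy0]
      exact hy
  obtain ⟨m1, m2, m3, m4, m5⟩ := F.main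
  refine ⟨fun w ρ y hρ hy => ?_, fun v hv => ?_, fun a r => ?_,
    fun w ρ θ a G r hρ hθ ha hθa hG hGL => ?_, fun w ρ θ θ' G hρ hθ hθ' hG hGL => ?_,
    fun w ρ θ hρ hθ => ?_⟩
  · rw [hterm w ρ y hy]
    exact m1 w ρ y hρ hy
  · have h : kernel 2 v = Pool.Agent.R791.Heat.gk 2⁻¹ v := rfl
    rw [h, Pool.Agent.R791.Heat.gk_half hv]
    ring
  · have h := m2 a r
    simp only [← hexp] at h
    exact h
  · rw [hexp]
    rw [hreg] at hG
    exact m3 w ρ θ a G r hρ hθ ha hθa hG hGL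
  · rw [hreg] at hG
    rw [hreg]
    obtain ⟨hfin, C, hC⟩ := m4 w ρ θ θ' G hρ hθ hθ' hG hGL
    refine ⟨hfin, C, fun y hy => ?_⟩
    rw [hT w ρ y hy]
    exact hC y hy
  · rw [hreg]
    refine (m5 w ρ θ hρ hθ).trans ?_
    refine forall_congr' fun ε => forall_congr' fun _ => exists_congr fun S => exists_congr fun m =>
      exists_congr fun C => ?_
    constructor
    · intro h
      filter_upwards [h, eventually_gt_atTop 0] with y hy hy0
      rw [hT w ρ y hy0]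
      exact hy
    · intro h
      filter_upwards [h, eventually_gt_atTop 0] with y hy hy0
      rw [← hT w ρ y hy0]
      exact hy

end Pool.Agent.Results.MP_f3836a_nt.OrderFromClosedPoints
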