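import Pool.Agent.R324.STop

/-!
# Soulé's conjecture for blow-ups of projective spaces, one centre and one dimension at a time

Let `S` be a class of regular connected schemes proper over `ℤ`, flat or not, for example all those
which are projective over `ℤ`. For `X` in `S` of Krull dimension `d` and `j ≥ 0` Soulé's identity at
`s = -j` is `ord_{s=-j} ζ(X, s) = ∑ (-1)^{i+1} dim H^{2(d+j)-i}(X, ℚ(d+j))`; the problem is the case
`j = 0` for flat `X`. A scheme is good if the hypotheses of the problem hold at all integers `-j`. A
tower is a scheme which is obtained from a projective space over `ℤ` by finitely many blow-ups in good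
centres, flat or not. We assume the formulas for the zeta functions and the motivic cohomology of
blow-ups and of products with projective spaces (`IsData`), and the identities for `Spec ℤ` (`Integers`).
For `W` in `S` let `SumSoule W j c` be the statement that the total order of `ζ(W, s)` at
`s = -j-1, …, -j-c` is the sum of the corresponding right sides.

**Theorem.** (1) Let `B` be the blow-up of `X` along `W` of codimension `c + 1`, `X` and `W` good, and
suppose the identity for `X` at `s = -j`. The identity for `B` at `s = -j` is equivalent to
`SumSoule W j c`; for `c = 1` it is equivalent to the identity for `W` at `s = -j-1`.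

(2) For one good scheme `W`: the identities for `W` at all `s = -j`, `j ≥ 1`, are equivalent to the
identity at `s = 0` for all blow-ups of projective spaces over `ℤ` along the schemes `ℙ^m × W`.

(3) For all `N` and `j`: the identity at `s = -j` for all towers of dimension `N` is equivalent to
`SumSoule W j c` for all centres `W`, of any codimension `c + 1`, of blow-ups of towers of dimension `N`.

(4) Using the known identities at `s = -j`, `j ≥ 1`, for schemes of dimension `≤ 1` (`Curves`): the towers
of dimension `≤ 3` satisfy the hypotheses of the problem and the identities at all `s = -j`, `j ≥ 0`. For
every `j ≥ 0` the identity at `s = -j` for all towers of dimension `4` is equivalent to the identity at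
`s = -j-1` for all their good centres of dimension `2`.
-/

set_option autoImplicit false

open Pool.Agent.R387.SO Pool.Agent.R324.ST

namespace Pool.Agent.Results.MP_f3836a_nt.TowersInEachDimension

theorem result {S : VarClass} {D : Data S} (h : IsData D) (hZ : Integers D) :
    OneBlowUp D ∧ (∀ W, Good D W → OneScheme D W) ∧ (∀ N j : ℕ, InDimension D N j) ∧
      (Curves D → Threefolds D ∧ Fourfolds D) :=
  ⟨oneBlowUp h, fun _ hW => oneScheme h hZ hW, inDimension h hZ,
    fun H => ⟨threefolds h hZ H, fourfolds h hZ H⟩⟩

end Pool.Agent.Results.MP_f3836a_nt.TowersInEachDimension
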